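import Pool.Agent.VKB.Range

/-!
# The exact vanishing range of the Koszul cohomology of Veronese embeddings in small cases

`K_{p,q}(ℙ^n, b; d)` is nonzero if and only if `0 ≤ a ≤ (n + 1) (d - 1)`, `LL d a ≤ p` and
`p + LL d ((n + 1) (d - 1) - a) + (n + 1) ≤ (n + d).choose d`, where `a = q d + b`, in each of the following cases: `n ≤ 2`;
`n = 3` and `d ≤ 4`; `d = 2` (`d ≥ 2` throughout). The definitions are in `Pool/Agent/VK/KoszulDef.lean` and
`Pool/Agent/VKB/Bound.lean`.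
-/

/-- the exact vanishing range for `n ≤ 2`, for `n = 3`, `d ≤ 4`, and for `d = 2` -/
theorem Pool.Agent.Results.MP_0e68d2_ag.ExactRange.result (n d : ℕ) (hd : 2 ≤ d)
    (h : n ≤ 2 ∨ (n = 3 ∧ d ≤ 4) ∨ d = 2) (b : ℤ) (p : ℕ) (q : ℤ) :
    Subsingleton (VK.KoszulCohomology n b d p q) ↔
      ¬ (0 ≤ q * d + b ∧ q * d + b ≤ (n + 1) * (d - 1) ∧ VKB.LL d (q * d + b).toNat ≤ p ∧
        p + VKB.LL d ((n + 1) * (d - 1) - (q * d + b)).toNat + (n + 1) ≤ (n + d).choose d) := by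
  have hs : ∀ a, a ≤ n * (d - 1) → VKB.BB d a = VKB.LL d a := by
    intro a ha
    rcases h with h | ⟨rfl, h⟩ | rfl
    · exact VKB.BB_eq_LL hd (ha.trans (Nat.mul_le_mul_right _ h))
    · have hd' : d = 2 ∨ d = 3 ∨ d = 4 := by omega
      rcases hd' with rfl | rfl | rfl
      · exact VKB.BB_eq_LL_two a
      · exact VKB.BB_eq_LL_three (by omega)
      · exact VKB.BB_eq_LL_four (by omega)
    · exact VKB.BB_eq_LL_two a
  have key := VKB.exact_range n d hd hs b p q
  rwa [Nat.multichoose_eq, show n + 1 + d - 1 = n + d by omega] at key
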