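import Pool.Agent.VKB.Kos2

/-!
# Vanishing of the Koszul cohomology of Veronese embeddings: the Ottaviani-Paoletti conjecture for `d = 4`

Notation: `a = q d + b`, `LL d a` is the number of monomials of degree `d` dividing
`x_1^(d-1) ⋯ x_(s-1)^(d-1) x_s^r`, where `a = (s - 1) (d - 1) + r`, `1 ≤ r ≤ d - 1`
(the vanishing range `p < LL d a` conjectured by Ein and Lazarsfeld), and `BB d` is the sequence
`BB d 0 = 0`, `BB d (a + 1) = min (LL d (a + 1)) (BB d a + ⌈(a + 1)/(d - 1)⌉ + ε)`, `ε = 1` if `a = 2 (d - 1)` or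
`d - 1` divides `a + 1`, and `ε = 0` otherwise. Then `K_{p,q}(ℙ^n, b; d) = 0` for all `n`, `b`, `q`, `d ≥ 2` and `p < BB d (q d + b)`.

In particular the `4`-uple embedding of every `ℙ^n` satisfies property `N_9`, and the `d`-uple embedding of every
`ℙ^n` satisfies `N_(d + 5)`, `d ≥ 4`. The definitions are in `Pool/Agent/VK/KoszulDef.lean` and `Pool/Agent/VKB/Bound.lean`.
-/

/-- `K_{p,q}(ℙ^n, b; d) = 0` for `p < BB d (q d + b)`; in particular `N_9` for `d = 4` and `N_(d+5)` for all `d ≥ 4`. -/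
theorem Pool.Agent.Results.MP_0e68d2_ag.VeroneseVanishing.result :
    (∀ (n : ℕ) (b : ℤ) (d p : ℕ) (q : ℤ), 2 ≤ d → p < VKB.BB d (q * d + b).toNat →
      Subsingleton (VK.KoszulCohomology n b d p q)) ∧
    (∀ (n p : ℕ) (q : ℤ), p ≤ 9 → 2 ≤ q → Subsingleton (VK.KoszulCohomology n 0 4 p q)) ∧
    (∀ (n d p : ℕ) (q : ℤ), 4 ≤ d → p ≤ d + 5 → 2 ≤ q →
      Subsingleton (VK.KoszulCohomology n 0 d p q)) :=
  ⟨VKB.vanishing2, VKB.quartic, VKB.veronese⟩
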